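import Pool.Agent.Q329.UX.Model
import Pool.Agent.H520R2.NMDefs

/-!
# Monotone computations with unreliable negated inputs: general form (helper329)
-/

set_option autoImplicit false
set_option linter.unusedSectionVars false
set_option linter.unusedVariables false

namespace Pool.Agent.Q329.UX

open Finset Pool.Agent.Y630.NW Pool.Agent.Y630.TF Pool.Agent.Y630.TR

/-- The probability that the random computation `F ρ` accepts the bits `z`, without faults; the
computation sees the literals. -/
noncomputable def accP {E R : Type} (F : R → (E × Bool → Bool) → Prop) (z : E → Bool) : ℝ :=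
  (Nat.card {ρ : R // F ρ (literals z ∅)} : ℝ) / Nat.card R

/-- The probability that the random computation `F ρ` accepts the bits `z`, if each negated input is
stuck at `0` independently with probability `1 / D` (each position `e` gets a random number `f e` from
`0` to `D - 1`, and `0` means a fault). -/
noncomputable def faultyP {E R : Type} (F : R → (E × Bool → Bool) → Prop) (D : ℕ)
    (z : E → Bool) : ℝ :=
  (Nat.card {v : R × (E → Fin D) // F v.1 (literals z {e | (v.2 e : ℕ) = 0})} : ℝ) /
    Nat.card (R × (E → Fin D))

section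

variable {E X G R : Type} [Fintype E] [DecidableEq E] [Fintype X] [DecidableEq X]
  [Fintype G] [DecidableEq G] [AddCommGroup G] [Fintype R] [Nonempty R]

/-- instances which are accepted under faults -/
theorem hide_yes (F : R → (E × Bool → Bool) → Prop) (hF : ∀ ρ u v, u ≤ v → F ρ u → F ρ v)
    {D : ℕ} (hD : 0 < D) (slot : X × G ↪ E) (base : E → Bool)
    (hbad : (Fintype.card X : ℝ) * (1 - 1 / (D : ℝ)) ^ Fintype.card G ≤ 1 / 40) (y : X → Bool)
    (h : ∀ τ : X → G, 4 / 5 ≤ faultyP F D (host slot base τ y)) :
    (3 / 4 : ℝ) * Nat.card (R × (X → G)) ≤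
      Nat.card {ω : R × (X → G) // F ω.1 (rlit slot base ω.2 y)} := by
  classical
  have hR : (0 : ℝ) < Fintype.card R := by exact_mod_cast Fintype.card_pos
  have hDR : (0 : ℝ) < D := by exact_mod_cast hD
  have h3 := transfer_yes slot base hD F hF (3 / 4) (1 / 20)
    (hbad.trans (by norm_num)) y (fun τ => by
      have h4 := h τ
      unfold faultyP at h4
      rw [le_div_iff₀ (by
        rw [Nat.card_eq_fintype_card, Fintype.card_prod, Fintype.card_fun, Fintype.card_fin]
        push_cast
        positivity)] at h4
      rw [Nat.card_eq_fintype_card (α := R × (E → Fin D)),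
        Fintype.card_prod, Fintype.card_fun, Fintype.card_fin] at h4
      refine le_trans (le_of_eq ?_) (h4.trans (le_of_eq ?_))
      · push_cast
        ring
      congr 1
      show Nat.card ↥{v : R × (E → Fin D) |
        F v.1 (literals (host slot base τ y) {c | (v.2 c : ℕ) = 0})} = _
      rw [Nat.card_coe_set_eq]
      congr 1
      ext v
      show F v.1 (literals _ {c | (v.2 c : ℕ) = 0}) ↔ F v.1 (lit _ (Flt v.2))
      rw [lit_eq]
      rfl)
  rw [Nat.card_eq_fintype_card (α := R × (X → G))]
  refine le_trans (mul_le_mul_of_nonneg_right (by norm_num) (Nat.cast_nonneg _))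
    (h3.trans (le_of_eq ?_))
  congr 1

/-- instances which are rejected without faults -/
theorem hide_no (F : R → (E × Bool → Bool) → Prop) (hF : ∀ ρ u v, u ≤ v → F ρ u → F ρ v)
    (slot : X × G ↪ E) (base : E → Bool) (y : X → Bool)
    (h : ∀ τ : X → G, accP F (host slot base τ y) ≤ 1 / 4) :
    (Nat.card {ω : R × (X → G) // F ω.1 (rlit slot base ω.2 y)} : ℝ) ≤
      (1 / 4 : ℝ) * Nat.card (R × (X → G)) := by
  classical
  have hR : (0 : ℝ) < Fintype.card R := by exact_mod_cast Fintype.card_pos
  have h3 := transfer_no slot base F hF (1 / 4) y (fun τ => by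
    have h4 := h τ
    unfold accP at h4
    rw [div_le_iff₀ (by rw [Nat.card_eq_fintype_card]; exact hR),
      Nat.card_eq_fintype_card (α := R)] at h4
    refine (le_of_eq ?_).trans h4
    congr 1
    show _ = Nat.card ↥{ρ : R | F ρ (literals (host slot base τ y) ∅)}
    rw [Nat.card_coe_set_eq]
    congr 1
    ext ρ
    show F ρ (lit _ ∅) ↔ F ρ (literals _ ∅)
    rw [lit_eq])
  rw [Nat.card_eq_fintype_card (α := R × (X → G))]
  refine le_trans (le_of_eq ?_) h3
  congr 1

/-- Some hidden computation is right on three quarters of the instances. -/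
theorem exists_right {Λ : Type} [Fintype Λ] [Nonempty Λ] (F : R → (E × Bool → Bool) → Prop)
    (hF : ∀ ρ u v, u ≤ v → F ρ u → F ρ v)
    {D : ℕ} (hD : 0 < D) (slot : X × G ↪ E) (base : E → Bool)
    (hbad : (Fintype.card X : ℝ) * (1 - 1 / (D : ℝ)) ^ Fintype.card G ≤ 1 / 40)
    (x : Λ → X → Bool) (P : Λ → Prop)
    (h1 : ∀ l, P l → ∀ τ : X → G, 4 / 5 ≤ faultyP F D (host slot base τ (x l)))
    (h2 : ∀ l, ¬ P l → ∀ τ : X → G, accP F (host slot base τ (x l)) ≤ 1 / 4) :
    ∃ ω : R × (X → G), (3 / 4 : ℝ) * Nat.card Λ ≤
      Nat.card {l // F ω.1 (rlit slot base ω.2 (x l)) ↔ P l} := by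
  classical
  by_contra hcon
  push Not at hcon
  have hcard : ∀ ω : R × (X → G),
      (Nat.card {l // F ω.1 (rlit slot base ω.2 (x l)) ↔ P l} : ℝ) =
      ∑ l, if (F ω.1 (rlit slot base ω.2 (x l)) ↔ P l) then (1 : ℝ) else 0 := by
    intro ω
    rw [Nat.card_eq_fintype_card, Fintype.card_subtype, Finset.card_filter]
    push_cast
    rfl
  have hsum := Finset.sum_lt_sum_of_nonempty (s := (univ : Finset (R × (X → G))))
    Finset.univ_nonempty (fun ω _ => hcon ω)
  simp_rw [hcard] at hsum
  rw [Finset.sum_comm, Finset.sum_const, Finset.card_univ, nsmul_eq_mul] at hsum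
  have h3 : ∀ l, (3 / 4 : ℝ) * Fintype.card (R × (X → G)) ≤
      ∑ ω : R × (X → G), if (F ω.1 (rlit slot base ω.2 (x l)) ↔ P l) then (1 : ℝ) else 0 := by
    intro l
    by_cases hl : P l
    · have h4 := hide_yes F hF hD slot base hbad (x l) (h1 l hl)
      rw [Nat.card_eq_fintype_card (α := R × (X → G)), Nat.card_eq_fintype_card,
        Fintype.card_subtype, Finset.card_filter] at h4
      push_cast at h4 ⊢
      refine h4.trans (le_of_eq (Finset.sum_congr rfl fun ω _ => ?_))
      simp [hl]
    · have h4 := hide_no F hF slot base (x l) (h2 l hl)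
      rw [Nat.card_eq_fintype_card (α := R × (X → G)), Nat.card_eq_fintype_card,
        Fintype.card_subtype, Finset.card_filter] at h4
      have h5 : (∑ ω : R × (X → G), if (F ω.1 (rlit slot base ω.2 (x l)) ↔ P l)
          then (1 : ℝ) else 0) = Fintype.card (R × (X → G)) -
          ∑ ω : R × (X → G), if F ω.1 (rlit slot base ω.2 (x l)) then (1 : ℝ) else 0 := by
        rw [eq_sub_iff_add_eq, ← Finset.sum_add_distrib]
        have h6 : ∀ ω : R × (X → G), (if (F ω.1 (rlit slot base ω.2 (x l)) ↔ P l)
            then (1 : ℝ) else 0) + (if F ω.1 (rlit slot base ω.2 (x l)) then (1 : ℝ) else 0) =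
            1 := by
          intro ω
          by_cases hω : F ω.1 (rlit slot base ω.2 (x l))
          · simp [hω, hl]
          · simp [hω, hl]
        rw [Finset.sum_congr rfl fun ω _ => h6 ω, Finset.sum_const, Finset.card_univ,
          nsmul_eq_mul, mul_one]
      rw [h5]
      push_cast at h4 ⊢
      linarith
  have h4 := Finset.sum_le_sum fun (l : Λ) (_ : l ∈ univ) => h3 l
  rw [Finset.sum_const, Finset.card_univ, nsmul_eq_mul] at h4
  rw [Nat.card_eq_fintype_card] at hsum
  nlinarith

end

/-! ## Substitution in circuits of AND and OR gates -/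

open Pool.Agent.H520R2.NM

variable {L X : Type}

/-- substitution of inputs and constants -/
def subWire (σ : L → X ⊕ Bool) {n : ℕ} : Wire L n → Wire X n
  | .input l => Sum.elim Wire.input Wire.const (σ l)
  | .const b => .const b
  | .gate j => .gate j

/-- substitution of inputs and constants -/
def subCircuit (σ : L → X ⊕ Bool) : {n : ℕ} → Circuit L n → Circuit X n
  | _, .empty => .empty
  | _, .and C a b => .and (subCircuit σ C) (subWire σ a) (subWire σ b)
  | _, .or C a b => .or (subCircuit σ C) (subWire σ a) (subWire σ b)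
  | _, .any C w u G a => .any (subCircuit σ C) w u G (fun j => subWire σ (a j))

theorem subWire_eval (σ : L → X ⊕ Bool) {n : ℕ} (a : Wire L n) (y : X → Bool)
    (v : Fin n → Bool) : (subWire σ a).eval y v = a.eval (fun l => Sum.elim y id (σ l)) v := by
  cases a with
  | input l =>
    show (Sum.elim Wire.input Wire.const (σ l)).eval y v = Sum.elim y id (σ l)
    cases σ l <;> rfl
  | const b => rfl
  | gate j => rfl

theorem subCircuit_vals (σ : L → X ⊕ Bool) {n : ℕ} (C : Circuit L n) (y : X → Bool) :
    (subCircuit σ C).vals y = C.vals (fun l => Sum.elim y id (σ l)) := by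
  induction C with
  | empty => rfl
  | and C a b ih =>
    simp only [subCircuit, Circuit.vals, ih, subWire_eval]
  | or C a b ih =>
    simp only [subCircuit, Circuit.vals, ih, subWire_eval]
  | any C w u G a ih =>
    simp only [subCircuit, Circuit.vals, ih, subWire_eval]

theorem subCircuit_size (σ : L → X ⊕ Bool) {n : ℕ} (C : Circuit L n) :
    (subCircuit σ C).size = C.size := by
  induction C with
  | empty => rfl
  | and C a b ih => simp only [subCircuit, Circuit.size, ih]
  | or C a b ih => simp only [subCircuit, Circuit.size, ih]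
  | any C w u G a ih => simp only [subCircuit, Circuit.size, ih]

theorem subCircuit_fanins (σ : L → X ⊕ Bool) {n : ℕ} (C : Circuit L n) :
    (subCircuit σ C).fanins = C.fanins := by
  induction C with
  | empty => rfl
  | and C a b ih => simp only [subCircuit, Circuit.fanins, ih]
  | or C a b ih => simp only [subCircuit, Circuit.fanins, ih]
  | any C w u G a ih => simp only [subCircuit, Circuit.fanins, ih]

theorem wire_mono {n : ℕ} (a : Wire L n) {x y : L → Bool} (hxy : x ≤ y) {u v : Fin n → Bool}
    (huv : u ≤ v) : a.eval x u ≤ a.eval y v := by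
  cases a with
  | input l => exact hxy l
  | const b => exact le_rfl
  | gate j => exact huv j

/-- circuits without arbitrary gates are monotone -/
theorem circuit_mono {n : ℕ} (C : Circuit L n) (hC : C.fanins = []) {x y : L → Bool}
    (hxy : x ≤ y) : C.vals x ≤ C.vals y := by
  induction C with
  | empty => exact fun j => j.elim0
  | and C a b ih =>
    have h := ih hC
    intro j
    refine Fin.lastCases ?_ (fun i => ?_) j
    · show Fin.snoc (α := fun _ => Bool) _ _ _ ≤ Fin.snoc (α := fun _ => Bool) _ _ _
      rw [Fin.snoc_last, Fin.snoc_last]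
      have h1 := wire_mono a hxy h
      have h2 := wire_mono b hxy h
      revert h1 h2
      generalize a.eval x (C.vals x) = p
      generalize a.eval y (C.vals y) = p'
      generalize b.eval x (C.vals x) = q
      generalize b.eval y (C.vals y) = q'
      revert p p' q q'
      decide
    · show Fin.snoc (α := fun _ => Bool) _ _ _ ≤ Fin.snoc (α := fun _ => Bool) _ _ _
      rw [Fin.snoc_castSucc, Fin.snoc_castSucc]
      exact h i
  | or C a b ih =>
    have h := ih hC
    intro j
    refine Fin.lastCases ?_ (fun i => ?_) j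
    · show Fin.snoc (α := fun _ => Bool) _ _ _ ≤ Fin.snoc (α := fun _ => Bool) _ _ _
      rw [Fin.snoc_last, Fin.snoc_last]
      have h1 := wire_mono a hxy h
      have h2 := wire_mono b hxy h
      revert h1 h2
      generalize a.eval x (C.vals x) = p
      generalize a.eval y (C.vals y) = p'
      generalize b.eval x (C.vals x) = q
      generalize b.eval y (C.vals y) = q'
      revert p p' q q'
      decide
    · show Fin.snoc (α := fun _ => Bool) _ _ _ ≤ Fin.snoc (α := fun _ => Bool) _ _ _
      rw [Fin.snoc_castSucc, Fin.snoc_castSucc]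
      exact h i
  | any C w u G a ih => exact absurd hC (by simp [Circuit.fanins])

/-- The circuit for the hidden instance. -/
theorem exists_sub {E G : Type} [Fintype E] [DecidableEq E] [Fintype X] [DecidableEq X]
    [Fintype G] [DecidableEq G] [AddCommGroup G] (slot : X × G ↪ E) (base : E → Bool) (τ : X → G) {n : ℕ}
    (C : Circuit (E × Bool) n) (out : Wire (E × Bool) n) :
    ∃ (C' : Circuit X n) (out' : Wire X n), C'.size = C.size ∧ C'.fanins = C.fanins ∧
      ∀ y, out'.eval y (C'.vals y) =
        out.eval (rlit slot base τ y) (C.vals (rlit slot base τ y)) := by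
  classical
  obtain ⟨σ, c, hσ⟩ := rlit_lsb slot base τ
  set σ' : E × Bool → X ⊕ Bool := fun l => (σ l).elim (Sum.inr (c l)) Sum.inl with hσ'
  have h1 : ∀ y : X → Bool, (fun l => Sum.elim y id (σ' l)) = rlit slot base τ y := by
    intro y
    rw [hσ y]
    funext l
    show Sum.elim y id ((σ l).elim (Sum.inr (c l)) Sum.inl) = (σ l).elim (c l) y
    cases σ l <;> rfl
  refine ⟨subCircuit σ' C, subWire σ' out, subCircuit_size σ' C, subCircuit_fanins σ' C,
    fun y => ?_⟩
  rw [subWire_eval, subCircuit_vals, h1]

end Pool.Agent.Q329.UX
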