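import Pool.Agent.Y630.TG.RcFault

/-!
# Circuits with monotone real gates and unreliable negated inputs (helper329)

Definitions for several results: circuits whose inputs are bits and their negations, where each
negated input may be stuck at `0`; and the reduction to circuits without negated inputs, for pairs of
distributions of instances.
-/

set_option autoImplicit false
set_option linter.unusedSectionVars false
set_option linter.unusedVariables false

namespace Pool.Agent.Q329.UX

open Finset Pool.Agent.Y630.NW Pool.Agent.Y630.TF Pool.Agent.Y630.TR Pool.Agent.W969.MC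

/-- A circuit with the gates `0, ..., s - 1` whose inputs are the bits of the positions `e` in `E` and
their negations: `(e, true)` stands for the bit of `e` and `(e, false)` for its negation. Gate `i`
has `w i ≤ 2` inputs, namely `a i j`, each a literal (`0` or `1`) or an earlier gate; it computes a
nondecreasing function `op i` of real numbers, and its value on the values `y` of the literals is
`val y i`. The circuit accepts if the value of gate `out` is at least `τ`. -/
structure LiteralCircuit (E : Type) where
  s : ℕ
  w : Fin s → ℕ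
  a : (i : Fin s) → Fin (w i) → (E × Bool) ⊕ Fin s
  op : (i : Fin s) → (Fin (w i) → ℝ) → ℝ
  val : (E × Bool → Bool) → Fin s → ℝ
  out : Fin s
  τ : ℝ
  earlier : ∀ i j m, a i j = Sum.inr m → m < i
  mono : ∀ i, w i ≤ 2 ∧ Monotone (op i)
  spec : ∀ y i, val y i = op i (fun j =>
    Sum.elim (fun p => if y p = true then (1 : ℝ) else 0) (val y) (a i j))

open Classical in
/-- The values of the literals for the bits `z` if the negated inputs of the positions in `Z` are
stuck at `0`. -/
noncomputable def literals {E : Type} (z : E → Bool) (Z : Set E) : E × Bool → Bool :=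
  fun p => if p.2 = true then z p.1 else if p.1 ∈ Z then false else !z p.1

/-- The circuit accepts `z` if the negated inputs of the positions in `Z` are stuck at `0`. -/
def LiteralCircuit.Accepts {E : Type} (C : LiteralCircuit E) (z : E → Bool) (Z : Set E) : Prop :=
  C.τ ≤ C.val (literals z Z) C.out

/-- The probability that `z` is accepted by a circuit that is chosen uniformly at random from the
family `C`, without faults. -/
noncomputable def acceptance {E R : Type} (C : R → LiteralCircuit E) (z : E → Bool) : ℝ :=
  (Nat.card {ρ : R // (C ρ).Accepts z ∅} : ℝ) / Nat.card R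

/-- The probability that `z` is accepted by a circuit that is chosen uniformly at random from the
family `C`, if each negated input is stuck at `0` independently with probability `1 / D` (each
position `e` gets a random number `f e` from `0` to `D - 1`, and `0` means a fault). -/
noncomputable def faultyAcceptance {E R : Type} (C : R → LiteralCircuit E) (D : ℕ)
    (z : E → Bool) : ℝ :=
  (Nat.card {v : R × (E → Fin D) // (C v.1).Accepts z {e | (v.2 e : ℕ) = 0}} : ℝ) /
    Nat.card (R × (E → Fin D))

theorem lit_eq {E : Type} (z : E → Bool) (Z : Set E) : lit z Z = literals z Z := by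
  classical
  funext q
  unfold lit literals
  by_cases hq : q.2 = true
  · rw [if_pos hq, if_pos hq]
  · rw [if_neg hq, if_neg hq]
    by_cases hZ : q.1 ∈ Z
    · simp [hZ]
    · simp [hZ]

/-- the same circuit in the form of `Pool.Agent.W969.MC` -/
def toRC {E : Type} (C : LiteralCircuit E) : RC (E × Bool) :=
  ⟨C.s, ∅, C.w, C.a, C.op, fun _ _ => 0, C.val, C.out, C.τ, C.earlier,
    fun i _ => C.mono i, fun i hi => absurd hi (Finset.notMem_empty i), C.spec⟩

/-- A circuit without negated inputs distinguishes the two distributions. -/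
theorem pair_fault {Λ E X G R : Type} [Fintype Λ] [Nonempty Λ] [Fintype E] [DecidableEq E]
    [Fintype X] [DecidableEq X] [Nonempty X] [Fintype G] [DecidableEq G] [AddCommGroup G]
    [Fintype R] [Nonempty R] (yes no : Λ → X → Bool) {D : ℕ} (hD : 0 < D)
    (slot : X × G ↪ E) (base : E → Bool) (C : R → LiteralCircuit E)
    (hbad : (Fintype.card X : ℝ) * (1 - 1 / (D : ℝ)) ^ Fintype.card G ≤ 1 / 40)
    (h1 : ∀ l (τ : X → G), 4 / 5 ≤ faultyAcceptance C D (host slot base τ (yes l)))
    (h2 : ∀ l (τ : X → G), acceptance C (host slot base τ (no l)) ≤ 1 / 4) :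
    ∃ (ρ : R) (C' : RC X), C'.T = ∅ ∧ C'.S = (C ρ).s ∧
      (Nat.card {l // C'.acc (no l)} : ℝ) + 1 / 2 * Nat.card Λ ≤ Nat.card {l // C'.acc (yes l)} := by
  classical
  have hx0 : Nonempty X := inferInstance
  obtain ⟨x0⟩ := hx0
  have hR : (0 : ℝ) < Fintype.card R := by exact_mod_cast Fintype.card_pos
  have hDR : (0 : ℝ) < D := by exact_mod_cast hD
  have hex : ∀ ω : R × (X → G), ∃ C' : RC X, C'.T = ∅ ∧ C'.S = (C ω.1).s ∧
      ∀ y, C'.acc y ↔ (toRC (C ω.1)).acc (rlit slot base ω.2 y) := by
    intro ω
    obtain ⟨σ, c, hσ⟩ := rlit_lsb slot base ω.2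
    obtain ⟨C', hsize, -, hT', hacc⟩ := subst (toRC (C ω.1)) x0 σ c
    have hT2 : C'.T = ∅ := hT'.mpr rfl
    refine ⟨C', hT2, ?_, fun y => ?_⟩
    · have h4 : C'.size = C'.S := by
        unfold RC.size
        rw [hT2, Finset.sum_empty, Nat.add_zero]
      have h5 : (toRC (C ω.1)).size = (C ω.1).s := by
        show (C ω.1).s + ∑ i ∈ (∅ : Finset (Fin (C ω.1).s)), (C ω.1).w i = _
        rw [Finset.sum_empty, Nat.add_zero]
      rw [← h4, ← h5, hsize]
    · rw [hacc, hσ]
      rfl
  choose C' hT' hS' hacc' using hex
  have hmono : ∀ (ρ : R) (u v : E × Bool → Bool), u ≤ v → (toRC (C ρ)).acc u →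
      (toRC (C ρ)).acc v := fun ρ u v huv hu => acc_mono _ rfl huv hu
  have hyes : ∀ l, (3 / 4 : ℝ) * Fintype.card (R × (X → G)) ≤
      ((univ.filter fun ω => (C' ω).acc (yes l)).card : ℝ) := by
    intro l
    have h3 := transfer_yes slot base hD (fun ρ y => (toRC (C ρ)).acc y) hmono (3 / 4) (1 / 20)
      (hbad.trans (by norm_num)) (yes l) (fun τ => by
        have h4 := h1 l τ
        unfold faultyAcceptance at h4
        rw [le_div_iff₀ (by
          rw [Nat.card_eq_fintype_card, Fintype.card_prod, Fintype.card_fun, Fintype.card_fin]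
          push_cast
          positivity)] at h4
        rw [Nat.card_eq_fintype_card (α := R × (E → Fin D)),
          Fintype.card_prod, Fintype.card_fun, Fintype.card_fin] at h4
        refine le_trans (le_of_eq ?_) (h4.trans (le_of_eq ?_))
        · push_cast
          ring
        congr 1
        show Nat.card ↥{v : R × (E → Fin D) |
          (C v.1).Accepts (host slot base τ (yes l)) {c | (v.2 c : ℕ) = 0}} = _
        rw [Nat.card_coe_set_eq]
        congr 1
        ext v
        show (C v.1).τ ≤ (C v.1).val (literals _ {c | (v.2 c : ℕ) = 0}) (C v.1).out ↔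
          (C v.1).τ ≤ (C v.1).val (lit _ (Flt v.2)) (C v.1).out
        rw [lit_eq]
        rfl)
    refine le_trans (mul_le_mul_of_nonneg_right (by norm_num) (Nat.cast_nonneg _))
      (h3.trans (le_of_eq ?_))
    rw [Set.ncard_eq_toFinset_card']
    congr 2
    ext ω
    simp [hacc']
  have hno : ∀ l, ((univ.filter fun ω => (C' ω).acc (no l)).card : ℝ) ≤
      (1 / 4 : ℝ) * Fintype.card (R × (X → G)) := by
    intro l
    have h3 := transfer_no slot base (fun ρ y => (toRC (C ρ)).acc y) hmono (1 / 4) (no l)
      (fun τ => by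
        have h4 := h2 l τ
        unfold acceptance at h4
        rw [div_le_iff₀ (by rw [Nat.card_eq_fintype_card]; exact hR),
          Nat.card_eq_fintype_card (α := R)] at h4
        refine (le_of_eq ?_).trans h4
        congr 1
        show _ = Nat.card ↥{ρ : R | (C ρ).Accepts (host slot base τ (no l)) ∅}
        rw [Nat.card_coe_set_eq]
        congr 1
        ext ρ
        show (C ρ).τ ≤ (C ρ).val (lit _ ∅) (C ρ).out ↔
          (C ρ).τ ≤ (C ρ).val (literals _ ∅) (C ρ).out
        rw [lit_eq])
    refine le_trans (le_of_eq ?_) h3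
    rw [Set.ncard_eq_toFinset_card']
    congr 2
    ext ω
    simp [hacc']
  -- averaging
  by_contra hcon
  push Not at hcon
  have hcard : ∀ (y : Λ → X → Bool) (ω : R × (X → G)), (Nat.card {l // (C' ω).acc (y l)} : ℝ) =
      ∑ l, if (C' ω).acc (y l) then (1 : ℝ) else 0 := by
    intro y ω
    rw [Nat.card_eq_fintype_card, Fintype.card_subtype, Finset.card_filter]
    push_cast
    rfl
  have hcard2 : ∀ (y : X → Bool), ((univ.filter fun ω => (C' ω).acc y).card : ℝ) =
      ∑ ω, if (C' ω).acc y then (1 : ℝ) else 0 := by
    intro y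
    rw [Finset.card_filter]
    push_cast
    rfl
  have hlt : ∀ ω : R × (X → G), (∑ l, if (C' ω).acc (yes l) then (1 : ℝ) else 0) <
      (∑ l, if (C' ω).acc (no l) then (1 : ℝ) else 0) + 1 / 2 * Fintype.card Λ := by
    intro ω
    have h3 := hcon ω.1 (C' ω) (hT' ω) (hS' ω)
    rw [hcard, hcard, Nat.card_eq_fintype_card] at h3
    exact h3
  have hsum := Finset.sum_lt_sum_of_nonempty (s := (univ : Finset (R × (X → G))))
    Finset.univ_nonempty (fun ω _ => hlt ω)
  rw [Finset.sum_add_distrib, Finset.sum_comm, Finset.sum_comm (s := (univ : Finset (R × (X → G)))),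
    Finset.sum_const, Finset.card_univ, nsmul_eq_mul] at hsum
  have h5 : ∑ l : Λ, (3 / 4 : ℝ) * Fintype.card (R × (X → G)) ≤
      ∑ l, ∑ ω, if (C' ω).acc (yes l) then (1 : ℝ) else 0 :=
    Finset.sum_le_sum fun l _ => by
      rw [← hcard2]
      exact hyes l
  have h6 : (∑ l, ∑ ω, if (C' ω).acc (no l) then (1 : ℝ) else 0) ≤
      ∑ l : Λ, (1 / 4 : ℝ) * Fintype.card (R × (X → G)) :=
    Finset.sum_le_sum fun l _ => by
      rw [← hcard2]
      exact hno l
  rw [Finset.sum_const, Finset.card_univ, nsmul_eq_mul] at h5 h6
  nlinarith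

end Pool.Agent.Q329.UX
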