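import Pool.Agent.Q329.UX.Gen

/-!
# Computations with several outputs and unreliable negated inputs (helper329)
-/

set_option autoImplicit false
set_option linter.unusedSectionVars false
set_option linter.unusedVariables false

namespace Pool.Agent.Q329.UX

open Finset Pool.Agent.Y630.NW Pool.Agent.Y630.TF Pool.Agent.Y630.TR

variable {E X G R : Type} [Fintype E] [DecidableEq E] [Fintype X] [DecidableEq X]
  [Fintype G] [DecidableEq G] [AddCommGroup G] [Fintype R] [Nonempty R]

open Classical in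
/-- one instance, two nondecreasing events -/
theorem hide_pair (A B : R → (E × Bool → Bool) → Prop) (hA : ∀ ρ u v, u ≤ v → A ρ u → A ρ v)
    (hB : ∀ ρ u v, u ≤ v → B ρ u → B ρ v)
    {D : ℕ} (hD : 0 < D) (slot : X × G ↪ E) (base : E → Bool)
    (hbad : (Fintype.card X : ℝ) * (1 - 1 / (D : ℝ)) ^ Fintype.card G ≤ 1 / 40) (y : X → Bool)
    (h1 : ∀ τ : X → G, 9 / 10 ≤ faultyP A D (host slot base τ y))
    (h2 : ∀ τ : X → G, accP B (host slot base τ y) ≤ 1 / 10) :
    (3 / 4 : ℝ) * Fintype.card (R × (X → G)) ≤ ((univ.filter fun ω : R × (X → G) =>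
      A ω.1 (rlit slot base ω.2 y) ∧ ¬ B ω.1 (rlit slot base ω.2 y)).card : ℝ) := by
  have hR : (0 : ℝ) < Fintype.card R := by exact_mod_cast Fintype.card_pos
  have hDR : (0 : ℝ) < D := by exact_mod_cast hD
  have h3 := transfer_yes slot base hD A hA (17 / 20) (1 / 20)
    (hbad.trans (by norm_num)) y (fun τ => by
      have h4 := h1 τ
      unfold faultyP at h4
      rw [le_div_iff₀ (by
        rw [Nat.card_eq_fintype_card, Fintype.card_prod, Fintype.card_fun, Fintype.card_fin]
        push_cast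
        positivity)] at h4
      rw [Nat.card_eq_fintype_card (α := R × (E → Fin D)),
        Fintype.card_prod, Fintype.card_fun, Fintype.card_fin] at h4
      refine le_trans (le_of_eq ?_) (h4.trans (le_of_eq ?_))
      · push_cast
        ring
      congr 1
      show Nat.card ↥{v : R × (E → Fin D) |
        A v.1 (literals (host slot base τ y) {c | (v.2 c : ℕ) = 0})} = _
      rw [Nat.card_coe_set_eq]
      congr 1
      ext v
      show A v.1 (literals _ {c | (v.2 c : ℕ) = 0}) ↔ A v.1 (lit _ (Flt v.2))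
      rw [lit_eq]
      rfl)
  have h5 := transfer_no slot base B hB (1 / 10) y (fun τ => by
    have h4 := h2 τ
    unfold accP at h4
    rw [div_le_iff₀ (by rw [Nat.card_eq_fintype_card]; exact hR),
      Nat.card_eq_fintype_card (α := R)] at h4
    refine (le_of_eq ?_).trans h4
    congr 1
    show _ = Nat.card ↥{ρ : R | B ρ (literals (host slot base τ y) ∅)}
    rw [Nat.card_coe_set_eq]
    congr 1
    ext ρ
    show B ρ (lit _ ∅) ↔ B ρ (literals _ ∅)
    rw [lit_eq])
  have e1 : ({ρτ : R × (X → G) | A ρτ.1 (rlit slot base ρτ.2 y)}.ncard : ℝ) =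
      ((univ.filter fun ω : R × (X → G) => A ω.1 (rlit slot base ω.2 y)).card : ℝ) := by
    rw [Set.ncard_eq_toFinset_card']
    congr 2
    ext ω
    simp
  have e2 : ({ρτ : R × (X → G) | B ρτ.1 (rlit slot base ρτ.2 y)}.ncard : ℝ) =
      ((univ.filter fun ω : R × (X → G) => B ω.1 (rlit slot base ω.2 y)).card : ℝ) := by
    rw [Set.ncard_eq_toFinset_card']
    congr 2
    ext ω
    simp
  rw [e1] at h3
  rw [e2] at h5
  have h6 : (univ.filter fun ω : R × (X → G) => A ω.1 (rlit slot base ω.2 y)) ⊆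
      (univ.filter fun ω : R × (X → G) =>
        A ω.1 (rlit slot base ω.2 y) ∧ ¬ B ω.1 (rlit slot base ω.2 y)) ∪
      univ.filter fun ω : R × (X → G) => B ω.1 (rlit slot base ω.2 y) := by
    intro ω hω
    rw [mem_filter] at hω
    rw [mem_union, mem_filter, mem_filter]
    by_cases h : B ω.1 (rlit slot base ω.2 y)
    · exact Or.inr ⟨mem_univ _, h⟩
    · exact Or.inl ⟨mem_univ _, hω.2, h⟩
  have h7 := (card_le_card h6).trans (card_union_le _ _)
  have h8 : ((univ.filter fun ω : R × (X → G) => A ω.1 (rlit slot base ω.2 y)).card : ℝ) ≤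
      ((univ.filter fun ω : R × (X → G) =>
        A ω.1 (rlit slot base ω.2 y) ∧ ¬ B ω.1 (rlit slot base ω.2 y)).card : ℝ) +
      ((univ.filter fun ω : R × (X → G) => B ω.1 (rlit slot base ω.2 y)).card : ℝ) := by
    exact_mod_cast h7
  have h10 : (0 : ℝ) ≤ Fintype.card (R × (X → G)) := Nat.cast_nonneg _
  linarith

open Classical in
/-- many instances: some hidden computation has the first event and not the second one for three
quarters of the instances -/
theorem exists_pair {Λ : Type} [Fintype Λ] [Nonempty Λ] (A B : Λ → R → (E × Bool → Bool) → Prop)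
    (hA : ∀ l ρ u v, u ≤ v → A l ρ u → A l ρ v) (hB : ∀ l ρ u v, u ≤ v → B l ρ u → B l ρ v)
    {D : ℕ} (hD : 0 < D) (slot : X × G ↪ E) (base : E → Bool)
    (hbad : (Fintype.card X : ℝ) * (1 - 1 / (D : ℝ)) ^ Fintype.card G ≤ 1 / 40)
    (x : Λ → X → Bool)
    (h1 : ∀ l, ∀ τ : X → G, 9 / 10 ≤ faultyP (A l) D (host slot base τ (x l)))
    (h2 : ∀ l, ∀ τ : X → G, accP (B l) (host slot base τ (x l)) ≤ 1 / 10) :
    ∃ ω : R × (X → G), (3 / 4 : ℝ) * Nat.card Λ ≤ Nat.card {l : Λ //
      A l ω.1 (rlit slot base ω.2 (x l)) ∧ ¬ B l ω.1 (rlit slot base ω.2 (x l))} := by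
  by_contra hcon
  push Not at hcon
  simp_rw [Nat.card_eq_fintype_card, Fintype.card_subtype] at hcon
  have hsum := Finset.sum_lt_sum_of_nonempty (s := (univ : Finset (R × (X → G))))
    Finset.univ_nonempty (fun ω _ => hcon ω)
  simp_rw [Finset.card_filter] at hsum
  push_cast at hsum
  rw [Finset.sum_comm, Finset.sum_const, Finset.card_univ, nsmul_eq_mul] at hsum
  have h4 := Finset.sum_le_sum fun (l : Λ) (_ : l ∈ univ) =>
    hide_pair (A l) (B l) (hA l) (hB l) hD slot base hbad (x l) (h1 l) (h2 l)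
  simp_rw [Finset.card_filter] at h4
  push_cast at h4
  rw [Finset.sum_const, Finset.card_univ, nsmul_eq_mul] at h4
  have h5 : (Fintype.card (R × (X → G)) : ℝ) = Fintype.card R * Fintype.card (X → G) := by
    rw [Fintype.card_prod]
    push_cast
    ring
  rw [h5] at hsum
  nlinarith

end Pool.Agent.Q329.UX
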