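import Pool.Agent.Q329.UX.Gen

/-!
# Circuits with unreliable negated inputs that output numbers (helper329)
-/

set_option autoImplicit false
set_option linter.unusedSectionVars false
set_option linter.unusedVariables false

namespace Pool.Agent.Q329.UX

open Finset Pool.Agent.Y630.NW Pool.Agent.Y630.TF Pool.Agent.Y630.TR Pool.Agent.W969.MC H630VC
open Pool.Agent.H560R2 (bit)

/-- substitution, with explicit values -/
noncomputable def subRC {L X : Type} (C : RC L) (x0 : X) (σ : L → Option X) (c : L → Bool) :
    RC X where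
  S := C.S
  T := C.T
  wd := C.wd
  a := fun i j => Sum.elim (fun l => Sum.inl ((σ l).getD x0)) Sum.inr (C.a i j)
  op := fun i z => C.op i (fun j =>
    Sum.elim (fun l => (σ l).elim (if c l = true then (1 : ℝ) else 0) (fun _ => z j))
      (fun _ => z j) (C.a i j))
  θ := C.θ
  val := fun y => C.val (lsub σ c y)
  o := C.o
  τ := C.τ
  htop := by
    intro i j k hk
    apply C.htop i j k
    rcases hm : C.a i j with l | k'
    · rw [hm] at hk
      simp at hk
    · rw [hm] at hk
      simpa using hk
  hmon := by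
    intro i hi
    refine ⟨(C.hmon i hi).1, ?_⟩
    intro z z' hz
    apply (C.hmon i hi).2
    intro j
    change Sum.elim (fun l => (σ l).elim (if c l = true then (1 : ℝ) else 0) (fun _ => z j))
        (fun _ => z j) (C.a i j) ≤
      Sum.elim (fun l => (σ l).elim (if c l = true then (1 : ℝ) else 0) (fun _ => z' j))
        (fun _ => z' j) (C.a i j)
    rcases C.a i j with l | k
    · simp only [Sum.elim_inl]
      rcases σ l with _ | x
      · exact le_rfl
      · exact hz j
    · simp only [Sum.elim_inr]
      exact hz j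
  hT := by
    intro i hi z z' hz
    apply C.hT i hi
    intro j
    rcases C.a i j with l | k
    · simp only [Sum.elim_inl]
      rcases σ l with _ | x
      · exact Iff.rfl
      · exact hz j
    · simp only [Sum.elim_inr]
      exact hz j
  hval := by
    intro y i
    change C.val (lsub σ c y) i = _
    rw [C.hval (lsub σ c y) i]
    congr 1
    funext j
    rcases hm : C.a i j with l | k
    · simp only [Sum.elim_inl]
      unfold lsub bit
      rcases hs : σ l with _ | x
      · simp only [Option.elim_none, hs]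
      · simp only [Option.elim_some, hs, hm, Option.getD_some, Sum.elim_inl]
    · simp only [Sum.elim_inr, hm]

section

variable {E X G : Type} [Fintype E] [DecidableEq E] [Fintype X] [DecidableEq X]
  [Fintype G] [DecidableEq G] [AddCommGroup G]

theorem lit_val_mono (C : LiteralCircuit E) {u v : E × Bool → Bool} (h : u ≤ v) (i : Fin C.s) :
    C.val u i ≤ C.val v i :=
  val_mono (toRC C) rfl h i

/-- the value of a gate of the circuit for the hidden instance, as a member of a list of functions
without negated inputs -/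
theorem value_list [Nonempty X] {I : Type} (inp : Set (I → ℝ)) (enc : I → X → Bool)
    (hbit : ∀ x, (fun i => bit (enc i) x) ∈ inp) (hconst : ∀ c : ℝ, (fun _ => c) ∈ inp)
    (slot : X × G ↪ E) (base : E → Bool) (τ : X → G) (C : LiteralCircuit E) :
    ∃ L : List (I → ℝ), FProg inp L [] ∧ L.length ≤ 3 * C.s + 1 ∧
      ∀ o : Fin C.s, (fun y => C.val (rlit slot base τ (enc y)) o) ∈ L := by
  classical
  obtain ⟨x0⟩ : Nonempty X := inferInstance
  obtain ⟨σ, c, hσ⟩ := rlit_lsb slot base τ
  obtain ⟨L, hL, hlen, -, hall⟩ := rc_prog_aux inp enc hbit hconst (subRC (toRC C) x0 σ c) rfl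
    (subRC (toRC C) x0 σ c).S le_rfl
  refine ⟨L, hL, hlen, fun o => ?_⟩
  have h1 := hall o o.isLt
  have h2 : (fun y => C.val (rlit slot base τ (enc y)) o) =
      fun y => (subRC (toRC C) x0 σ c).val (enc y) o := by
    funext y
    rw [hσ]
    rfl
  rw [h2]
  exact h1

variable {R : Type} [Fintype R] [Nonempty R]

open Classical in
/-- Random numbers that depend monotonically on the literals: if the number is at least `a` under
faults and at most `b` without faults, each with probability at least `9 / 10`, then the hidden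
computation without negated inputs is between `a` and `b` with probability at least `3 / 4`. -/
theorem hide_value (V : R → (E × Bool → Bool) → ℝ) (hV : ∀ ρ u v, u ≤ v → V ρ u ≤ V ρ v)
    {D : ℕ} (hD : 0 < D) (slot : X × G ↪ E) (base : E → Bool)
    (hbad : (Fintype.card X : ℝ) * (1 - 1 / (D : ℝ)) ^ Fintype.card G ≤ 1 / 40) (y : X → Bool)
    (a b : ℝ)
    (h1 : ∀ τ : X → G, 9 / 10 ≤ faultyP (fun ρ u => a ≤ V ρ u) D (host slot base τ y))
    (h2 : ∀ τ : X → G, accP (fun ρ u => b < V ρ u) (host slot base τ y) ≤ 1 / 10) :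
    3 * Fintype.card (R × (X → G)) ≤ 4 * (univ.filter fun ω : R × (X → G) =>
      a ≤ V ω.1 (rlit slot base ω.2 y) ∧ V ω.1 (rlit slot base ω.2 y) ≤ b).card := by
  have hR : (0 : ℝ) < Fintype.card R := by exact_mod_cast Fintype.card_pos
  have hDR : (0 : ℝ) < D := by exact_mod_cast hD
  have h3 := transfer_yes slot base hD (fun ρ u => a ≤ V ρ u)
    (fun ρ u v huv hu => hu.trans (hV ρ u v huv)) (17 / 20) (1 / 20)
    (hbad.trans (by norm_num)) y (fun τ => by
      have h4 := h1 τ
      unfold faultyP at h4
      rw [le_div_iff₀ (by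
        rw [Nat.card_eq_fintype_card, Fintype.card_prod, Fintype.card_fun, Fintype.card_fin]
        push_cast
        positivity)] at h4
      rw [Nat.card_eq_fintype_card (α := R × (E → Fin D)),
        Fintype.card_prod, Fintype.card_fun, Fintype.card_fin] at h4
      refine le_trans (le_of_eq ?_) (h4.trans (le_of_eq ?_))
      · push_cast
        ring
      congr 1
      show Nat.card ↥{v : R × (E → Fin D) |
        a ≤ V v.1 (literals (host slot base τ y) {c | (v.2 c : ℕ) = 0})} = _
      rw [Nat.card_coe_set_eq]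
      congr 1
      ext v
      show a ≤ V v.1 (literals _ {c | (v.2 c : ℕ) = 0}) ↔ a ≤ V v.1 (lit _ (Flt v.2))
      rw [lit_eq]
      rfl)
  have h5 := transfer_no slot base (fun ρ u => b < V ρ u)
    (fun ρ u v huv hu => lt_of_lt_of_le hu (hV ρ u v huv)) (1 / 10) y (fun τ => by
    have h4 := h2 τ
    unfold accP at h4
    rw [div_le_iff₀ (by rw [Nat.card_eq_fintype_card]; exact hR),
      Nat.card_eq_fintype_card (α := R)] at h4
    refine (le_of_eq ?_).trans h4
    congr 1
    show _ = Nat.card ↥{ρ : R | b < V ρ (literals (host slot base τ y) ∅)}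
    rw [Nat.card_coe_set_eq]
    congr 1
    ext ρ
    show b < V ρ (lit _ ∅) ↔ b < V ρ (literals _ ∅)
    rw [lit_eq])
  have e1 : ({ρτ : R × (X → G) | a ≤ V ρτ.1 (rlit slot base ρτ.2 y)}.ncard : ℝ) =
      ((univ.filter fun ω : R × (X → G) => a ≤ V ω.1 (rlit slot base ω.2 y)).card : ℝ) := by
    rw [Set.ncard_eq_toFinset_card']
    congr 2
    ext ω
    simp
  have e2 : ({ρτ : R × (X → G) | b < V ρτ.1 (rlit slot base ρτ.2 y)}.ncard : ℝ) =
      ((univ.filter fun ω : R × (X → G) => b < V ω.1 (rlit slot base ω.2 y)).card : ℝ) := by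
    rw [Set.ncard_eq_toFinset_card']
    congr 2
    ext ω
    simp
  rw [e1] at h3
  rw [e2] at h5
  have h6 : (univ.filter fun ω : R × (X → G) => a ≤ V ω.1 (rlit slot base ω.2 y)) ⊆
      (univ.filter fun ω : R × (X → G) =>
        a ≤ V ω.1 (rlit slot base ω.2 y) ∧ V ω.1 (rlit slot base ω.2 y) ≤ b) ∪
      univ.filter fun ω : R × (X → G) => b < V ω.1 (rlit slot base ω.2 y) := by
    intro ω hω
    rw [mem_filter] at hω
    rw [mem_union, mem_filter, mem_filter]
    rcases le_or_gt (V ω.1 (rlit slot base ω.2 y)) b with h | h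
    · exact Or.inl ⟨mem_univ _, hω.2, h⟩
    · exact Or.inr ⟨mem_univ _, h⟩
  have h7 := (card_le_card h6).trans (card_union_le _ _)
  have h8 : ((univ.filter fun ω : R × (X → G) => a ≤ V ω.1 (rlit slot base ω.2 y)).card : ℝ) ≤
      ((univ.filter fun ω : R × (X → G) =>
        a ≤ V ω.1 (rlit slot base ω.2 y) ∧ V ω.1 (rlit slot base ω.2 y) ≤ b).card : ℝ) +
      ((univ.filter fun ω : R × (X → G) => b < V ω.1 (rlit slot base ω.2 y)).card : ℝ) := by
    exact_mod_cast h7
  have h9 : (3 : ℝ) * Fintype.card (R × (X → G)) ≤ 4 * ((univ.filter fun ω : R × (X → G) =>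
      a ≤ V ω.1 (rlit slot base ω.2 y) ∧ V ω.1 (rlit slot base ω.2 y) ≤ b).card : ℝ) := by
    have h10 : (0 : ℝ) ≤ Fintype.card (R × (X → G)) := Nat.cast_nonneg _
    linarith
  exact_mod_cast h9

end

end Pool.Agent.Q329.UX
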